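import Pool.Agent.H1.SelE

set_option autoImplicit false

/-- Every nonconstant self-inversive complex polynomial (zeros symmetric, with multiplicity, under
`ζ ↦ 1/ζ`; or under `ζ ↦ 1/conj ζ`) maps the open unit disc onto a set containing an open disc of
radius `max_k |a_k|`. -/
theorem Pool.Agent.Results.MP_c7fa02_an.Yes.result (P : Polynomial ℂ) (hP : 1 ≤ P.natDegree)
    (h : (∀ ζ : ℂ, P.IsRoot ζ → ζ ≠ 0 ∧ P.rootMultiplicity ζ⁻¹ = P.rootMultiplicity ζ) ∨
      (∀ ζ : ℂ, P.IsRoot ζ → ζ ≠ 0 ∧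
        P.rootMultiplicity (starRingEnd ℂ ζ)⁻¹ = P.rootMultiplicity ζ)) :
    ∃ w₀ : ℂ, Metric.ball w₀
        ((Finset.range (P.natDegree + 1)).sup' Finset.nonempty_range_add_one fun k => ‖P.coeff k‖) ⊆
      (fun z => P.eval z) '' Metric.ball 0 1 := by
  have P0 : P ≠ 0 := fun e => by simp [e] at hP
  obtain ⟨c, hc⟩ := Pool.Agent.H1.Sel.disc P hP (h.elim
    (Pool.Agent.H1.Sel.symm (RingHom.id ℂ) (fun _ => rfl) (fun _ => rfl) P P0)
    (Pool.Agent.H1.Sel.symm (starRingEnd ℂ) Complex.conj_conj Complex.norm_conj P P0))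
  obtain ⟨k, -, e⟩ := Finset.exists_mem_eq_sup' (s := Finset.range (P.natDegree + 1))
    Finset.nonempty_range_add_one fun k => ‖P.coeff k‖
  exact ⟨c, e ▸ hc k⟩
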